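import Mathlib

/-!
# Hyperbolic planes in even lattices with an isotropic vector of divisibility at most 2 or 3
-/

set_option autoImplicit false

namespace Pool.Agent.LBL

variable {N : Type*} [AddCommGroup N]

/-- There is a hyperbolic plane `⟨e, f⟩`. -/
def HasU (B : N →ₗ[ℤ] N →ₗ[ℤ] ℤ) : Prop := ∃ e f : N, B e e = 0 ∧ B f f = 0 ∧ B e f = 1

/-- The vectors `l₁, l₂` span a lattice `A_2`. -/
def ATwo (B : N →ₗ[ℤ] N →ₗ[ℤ] ℤ) (l₁ l₂ : N) : Prop :=
  B l₁ l₁ = 2 ∧ B l₂ l₂ = 2 ∧ B l₁ l₂ = -1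

variable {B : N →ₗ[ℤ] N →ₗ[ℤ] ℤ}

/-- An isotropic vector with two coprime products gives a hyperbolic plane. -/
theorem hasU_of_coprime (hs : ∀ x y, B x y = B y x) (he : ∀ x, Even (B x x)) {y z₁ z₂ : N}
    (hy : B y y = 0) (h : IsCoprime (B y z₁) (B y z₂)) : HasU B := by
  obtain ⟨a, b, hab⟩ := h
  obtain ⟨z, hz⟩ : ∃ z, z = a • z₁ + b • z₂ := ⟨_, rfl⟩
  have hyz : B y z = 1 := by
    rw [hz]
    simp only [map_add, map_smul, smul_eq_mul]
    exact hab
  have hzy : B z y = 1 := by rw [hs, hyz]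
  obtain ⟨c, hc⟩ := he z
  refine ⟨y, z - c • y, hy, ?_, ?_⟩
  · simp only [map_sub, map_smul, LinearMap.sub_apply, LinearMap.smul_apply, smul_eq_mul, hc,
      hyz, hzy, hy]
    ring
  · simp only [map_sub, map_smul, smul_eq_mul, hyz, hy]
    ring

theorem coprime_two {a : ℤ} (h : a % 2 = 1) : IsCoprime a (-2) := by
  refine ⟨1, a / 2, ?_⟩
  omega

theorem coprime_three {a : ℤ} (h : ¬ 3 ∣ a) : IsCoprime a (-3) := by
  rcases (show a % 3 = 1 ∨ a % 3 = 2 by omega) with e | e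
  · exact ⟨1, a / 3, by omega⟩
  · exact ⟨-1, -(a / 3) - 1, by omega⟩

/-- **Divisibility 2.** `w₀` is isotropic, `(u, w₀) = -2`. If there is a vector `w` whose square is
divisible by `4` and which has an odd product, then `w₀` itself has an odd product or there is an
isotropic vector `y` with `(y, w₀) = -2` which has an odd product. -/
theorem lift_two (hs : ∀ x y, B x y = B y x) {w₀ u w z₀ : N} (h0 : B w₀ w₀ = 0)
    (hu : B u w₀ = -2) (hu2 : Even (B u u)) (he : ∀ x, Even (B x x)) (hww : 4 ∣ B w w)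
    (hwz : B w z₀ % 2 = 1) :
    (∃ y, B y w₀ % 2 = 1) ∨ ∃ y : N, B y y = 0 ∧ B y w₀ = -2 ∧ ∃ z, B y z % 2 = 1 := by
  by_cases hd : ∃ y, B y w₀ % 2 = 1
  · exact Or.inl hd
  right
  push Not at hd
  have heven : ∀ y, 2 ∣ B y w₀ := by
    intro y
    have := hd y
    omega
  -- it is enough to have `(y, y) = 0` modulo `4`
  have red : (∃ y : N, 4 ∣ B y y ∧ B y w₀ = -2 ∧ ∃ z, B y z % 2 = 1) →
      ∃ y : N, B y y = 0 ∧ B y w₀ = -2 ∧ ∃ z, B y z % 2 = 1 := by
    rintro ⟨y, ⟨m, hm⟩, hy, z, hz⟩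
    have h0y : B w₀ y = -2 := by rw [hs, hy]
    refine ⟨y + m • w₀, ?_, ?_, z, ?_⟩
    · simp only [map_add, map_smul, LinearMap.add_apply, LinearMap.smul_apply, smul_eq_mul,
        hm, hy, h0, h0y]
      ring
    · simp only [map_add, map_smul, LinearMap.add_apply, LinearMap.smul_apply, smul_eq_mul, hy, h0]
      ring
    · obtain ⟨c, hc⟩ := heven z
      have h0z : B w₀ z = 2 * c := by rw [hs, hc]
      simp only [map_add, map_smul, LinearMap.add_apply, LinearMap.smul_apply, smul_eq_mul, h0z]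
      have : m * (2 * c) = 2 * (m * c) := by ring
      omega
  apply red
  obtain ⟨r', hr'⟩ := heven w
  obtain ⟨r, hr⟩ : ∃ r, B w w₀ = -2 * r := ⟨-r', by rw [hr']; ring⟩
  have hwu : B u w = B w u := hs _ _
  have h0w : B w₀ w = -2 * r := by rw [hs, hr]
  have h0u : B w₀ u = -2 := by rw [hs, hu]
  obtain ⟨k, hk⟩ := hww
  obtain ⟨q, hq⟩ := hu2
  rcases Int.even_or_odd' r with ⟨t, ht | ht⟩
  · -- `r` is even
    obtain ⟨C, hCdef⟩ : ∃ C, C = w - r • u := ⟨_, rfl⟩
    have hC0 : B C w₀ = 0 := by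
      rw [hCdef]
      simp only [map_sub, map_smul, LinearMap.sub_apply, LinearMap.smul_apply, smul_eq_mul, hr, hu]
      ring
    have hCC : 4 ∣ B C C := by
      refine ⟨k - t * B w u + t ^ 2 * (q + q), ?_⟩
      rw [hCdef]
      simp only [map_sub, map_smul, LinearMap.sub_apply, LinearMap.smul_apply, smul_eq_mul,
        hk, hwu, hq, ht]
      ring
    have hCz : B C z₀ % 2 = 1 := by
      rw [hCdef]
      simp only [map_sub, map_smul, LinearMap.sub_apply, LinearMap.smul_apply, smul_eq_mul]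
      have : r * B u z₀ = 2 * (t * B u z₀) := by rw [ht]; ring
      omega
    have hCu : B C u = B u C := hs _ _
    obtain ⟨c, hc⟩ := hCC
    rcases Int.emod_two_eq_zero_or_one (B u C) with hp | hp
    · rcases Int.even_or_odd' q with ⟨q', hq' | hq'⟩
      · -- `(u, u)` is `0` modulo `4`
        obtain ⟨a, ha⟩ : ∃ a, B u C = 2 * a := ⟨B u C / 2, by omega⟩
        rcases Int.emod_two_eq_zero_or_one (B u z₀) with hz | hz
        · refine ⟨u + C, ⟨q' + a + c, ?_⟩, ?_, z₀, ?_⟩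
          · simp only [map_add, LinearMap.add_apply, hCu]
            linear_combination hq + hc + 2 * ha + 2 * hq'
          · simp only [map_add, LinearMap.add_apply, hu, hC0]
            ring
          · simp only [map_add, LinearMap.add_apply]
            omega
        · exact ⟨u, ⟨q', by linear_combination hq + 2 * hq'⟩, hu, z₀, hz⟩
      · -- `(u, u)` is `2` modulo `4`
        obtain ⟨s', hs'⟩ := heven z₀
        obtain ⟨E, hEdef⟩ : ∃ E, E = z₀ + s' • u := ⟨_, rfl⟩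
        have hE0 : B E w₀ = 0 := by
          rw [hEdef]
          simp only [map_add, map_smul, LinearMap.add_apply, LinearMap.smul_apply, smul_eq_mul,
            hs', hu]
          ring
        have hCE : B C E % 2 = 1 := by
          rw [hEdef]
          simp only [map_add, map_smul, smul_eq_mul, hCu]
          obtain ⟨a, ha⟩ : ∃ a, B u C = 2 * a := ⟨B u C / 2, by omega⟩
          have : s' * B u C = 2 * (s' * a) := by rw [ha]; ring
          omega
        have hEC : B E C = B C E := hs _ _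
        have hEu : B E u = B u E := hs _ _
        obtain ⟨g, hg⟩ := he E
        obtain ⟨a, ha⟩ : ∃ a, B u C = 2 * a := ⟨B u C / 2, by omega⟩
        obtain ⟨b, hb⟩ : ∃ b, B C E = 2 * b + 1 := ⟨B C E / 2, by omega⟩
        rcases Int.emod_two_eq_zero_or_one (B u E + g) with hm | hm
        · obtain ⟨d, hd'⟩ : ∃ d, B u E + g = 2 * d := ⟨(B u E + g) / 2, by omega⟩
          refine ⟨u + C + E, ⟨q' + 1 + a + b + c + d, ?_⟩, ?_, C, ?_⟩
          · simp only [map_add, LinearMap.add_apply, hCu, hEC, hEu]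
            linear_combination hq + hc + 2 * ha + 2 * hb + hg + 2 * hd' + 2 * hq'
          · simp only [map_add, LinearMap.add_apply, hu, hC0, hE0]
            ring
          · simp only [map_add, LinearMap.add_apply, hEC]
            omega
        · obtain ⟨d, hd'⟩ : ∃ d, B u E + g = 2 * d + 1 := ⟨(B u E + g) / 2, by omega⟩
          refine ⟨u + E, ⟨q' + 1 + d, ?_⟩, ?_, C, ?_⟩
          · simp only [map_add, LinearMap.add_apply, hEu]
            linear_combination hq + hg + 2 * hd' + 2 * hq'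
          · simp only [map_add, LinearMap.add_apply, hu, hE0]
            ring
          · simp only [map_add, LinearMap.add_apply, hEC]
            omega
    · rcases Int.even_or_odd' q with ⟨q', hq' | hq'⟩
      · exact ⟨u, ⟨q', by linear_combination hq + 2 * hq'⟩, hu, C, hp⟩
      · obtain ⟨a, ha⟩ : ∃ a, B u C = 2 * a + 1 := ⟨B u C / 2, by omega⟩
        refine ⟨u + C, ⟨q' + 1 + a + c, ?_⟩, ?_, C, ?_⟩
        · simp only [map_add, LinearMap.add_apply, hCu]
          linear_combination hq + hc + 2 * ha + 2 * hq'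
        · simp only [map_add, LinearMap.add_apply, hu, hC0]
          ring
        · simp only [map_add, LinearMap.add_apply]
          omega
  · -- `r` is odd
    refine ⟨w - (2 * t) • u, ?_, ?_, z₀, ?_⟩
    · refine ⟨k - t * B w u + t ^ 2 * (q + q), ?_⟩
      simp only [map_sub, map_smul, LinearMap.sub_apply, LinearMap.smul_apply, smul_eq_mul,
        hk, hwu, hq]
      ring
    · simp only [map_sub, map_smul, LinearMap.sub_apply, LinearMap.smul_apply, smul_eq_mul, hr,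
        hu, ht]
      ring
    · simp only [map_sub, map_smul, LinearMap.sub_apply, LinearMap.smul_apply, smul_eq_mul]
      have : 2 * t * B u z₀ = 2 * (t * B u z₀) := by ring
      omega

/-- The converse of `lift_two`. -/
theorem hasU_of_lift_two (hs : ∀ x y, B x y = B y x) (he : ∀ x, Even (B x x)) {w₀ u : N}
    (h0 : B w₀ w₀ = 0) (hu : B u w₀ = -2)
    (h : (∃ y, B y w₀ % 2 = 1) ∨ ∃ y : N, B y y = 0 ∧ B y w₀ = -2 ∧ ∃ z, B y z % 2 = 1) :
    HasU B := by
  rcases h with ⟨y, hy⟩ | ⟨y, hy, hy0, z, hz⟩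
  · refine hasU_of_coprime hs he (y := w₀) (z₁ := y) (z₂ := u) h0 ?_
    rw [hs w₀ u, hu, hs w₀ y]
    exact coprime_two hy
  · refine hasU_of_coprime hs he (y := y) (z₁ := z) (z₂ := w₀) hy ?_
    rw [hy0]
    exact coprime_two hz

/-! ## Divisibility 3 -/

/-- If `(w, w)` is divisible by `6`, `(w, l₁)` is prime to `3` and `k = (w, w₀) / 3` is prime to
`3`, where `w₀ = l₁ + 2 l₂ + v`, then there is the pair `f, f'`. -/
theorem lift_three_aux (hs : ∀ x y, B x y = B y x) {l₁ l₂ v w : N} (hA : ATwo B l₁ l₂)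
    (hv : B v v = -6) (hv1 : B v l₁ = 0) (hv2 : B v l₂ = 0) (hww : 6 ∣ B w w) {k : ℤ}
    (hk : B w (l₁ + 2 • l₂ + v) = 3 * k) (hk3 : ¬ 3 ∣ k) (hw1 : ¬ 3 ∣ B w l₁) :
    ∃ f f' : N, B f f = 0 ∧ B f' f' = 0 ∧ B f f' = -1 ∧
      B f (l₁ + 2 • l₂ + v) = -3 ∧ B f' (l₁ + 2 • l₂ + v) = -3 := by
  obtain ⟨h11, h22, h12⟩ := hA
  have h21 : B l₂ l₁ = -1 := by rw [hs, h12]
  have h1v : B l₁ v = 0 := by rw [hs, hv1]
  have h2v : B l₂ v = 0 := by rw [hs, hv2]
  obtain ⟨n, hn⟩ := hww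
  obtain ⟨w₀, hw₀⟩ : ∃ w₀, w₀ = l₁ + 2 • l₂ + v := ⟨_, rfl⟩
  rw [← hw₀] at hk ⊢
  have h00 : B w₀ w₀ = 0 := by
    rw [hw₀]
    simp only [map_add, map_nsmul, LinearMap.add_apply, LinearMap.smul_apply, nsmul_eq_mul,
      h11, h12, h21, h22, h1v, h2v, hv1, hv2, hv]
    norm_num
  have h10 : B l₁ w₀ = 0 := by
    rw [hw₀]
    simp only [map_add, map_nsmul, nsmul_eq_mul, h11, h12, h1v]
    norm_num
  have h20 : B l₂ w₀ = 3 := by
    rw [hw₀]
    simp only [map_add, map_nsmul, nsmul_eq_mul, h21, h22, h2v]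
    norm_num
  have h01 : B w₀ l₁ = 0 := by rw [hs, h10]
  have h02 : B w₀ l₂ = 3 := by rw [hs, h20]
  have h0w : B w₀ w = 3 * k := by rw [hs, hk]
  have h1w : B l₁ w = B w l₁ := hs _ _
  have h2w : B l₂ w = B w l₂ := hs _ _
  -- `1 - k ^ 2` is divisible by `3`
  obtain ⟨c, hc⟩ : ∃ c, 1 - k ^ 2 = 3 * c := by
    rcases (show k % 3 = 1 ∨ k % 3 = 2 by omega) with e | e
    · obtain ⟨a, rfl⟩ : ∃ a, k = 3 * a + 1 := ⟨k / 3, by omega⟩
      exact ⟨-(3 * a ^ 2 + 2 * a), by ring⟩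
    · obtain ⟨a, rfl⟩ : ∃ a, k = 3 * a + 2 := ⟨k / 3, by omega⟩
      exact ⟨-(3 * a ^ 2 + 4 * a + 1), by ring⟩
  -- the vector `e = (1 - k ^ 2) u - k w`, `u = - l₂`
  obtain ⟨e, hedef⟩ : ∃ e, e = (-(1 - k ^ 2)) • l₂ - k • w := ⟨_, rfl⟩
  have he0 : B e w₀ = -3 := by
    rw [hedef]
    simp only [map_sub, map_smul, LinearMap.sub_apply, LinearMap.smul_apply, smul_eq_mul, h20, hk]
    ring
  have hee : ∃ d, B e e = 6 * d := by
    refine ⟨3 * c ^ 2 + c * k * B w l₂ + k ^ 2 * n, ?_⟩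
    rw [hedef]
    simp only [map_sub, map_smul, LinearMap.sub_apply, LinearMap.smul_apply, smul_eq_mul, h22,
      h2w, hn, hc]
    ring
  have he1 : ¬ 3 ∣ B e l₁ := by
    have h3 : B e l₁ = 3 * c - k * B w l₁ := by
      rw [hedef]
      simp only [map_sub, map_smul, LinearMap.sub_apply, LinearMap.smul_apply, smul_eq_mul, h21]
      rw [hc]
      ring
    rw [h3]
    intro hdvd
    have h4 : (3 : ℤ) ∣ k * B w l₁ := by
      have h5 : k * B w l₁ = 3 * c - (3 * c - k * B w l₁) := by ring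
      rw [h5]
      exact dvd_sub (dvd_mul_right _ _) hdvd
    rcases (Int.prime_three.dvd_mul).1 h4 with h6 | h6
    · exact hk3 h6
    · exact hw1 h6
  obtain ⟨d, hd⟩ := hee
  have h0e : B w₀ e = -3 := by rw [hs, he0]
  have h1e : B l₁ e = B e l₁ := hs _ _
  -- the sign `i` and `j` with `(e, h + j w₀) = -2 i`
  obtain ⟨i, j, hi, hij⟩ : ∃ i j : ℤ, (i = 1 ∨ i = -1) ∧ B e l₁ - 3 * j = -2 * i := by
    rcases (show B e l₁ % 3 = 1 ∨ B e l₁ % 3 = 2 by omega) with h | h
    · exact ⟨1, (B e l₁ + 2) / 3, Or.inl rfl, by omega⟩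
    · exact ⟨-1, (B e l₁ - 2) / 3, Or.inr rfl, by omega⟩
  have hi2 : i ^ 2 = 1 := by rcases hi with rfl | rfl <;> norm_num
  obtain ⟨h', hh'⟩ : ∃ h', h' = l₁ + j • w₀ := ⟨_, rfl⟩
  have a1 : B h' h' = 2 := by
    rw [hh']
    simp only [map_add, map_smul, LinearMap.add_apply, LinearMap.smul_apply, smul_eq_mul, h11,
      h10, h01, h00]
    ring
  have a2 : B h' w₀ = 0 := by
    rw [hh']
    simp only [map_add, map_smul, LinearMap.add_apply, LinearMap.smul_apply, smul_eq_mul, h10, h00]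
    ring
  have a3 : B e h' = -2 * i := by
    rw [hh']
    simp only [map_add, map_smul, smul_eq_mul, he0]
    linear_combination hij
  have a2' : B w₀ h' = 0 := by rw [hs, a2]
  have a3' : B h' e = -2 * i := by rw [hs, a3]
  -- `e' = e + i h' + m w₀`
  obtain ⟨e', he'⟩ : ∃ e', e' = e + i • h' + (d - 1) • w₀ := ⟨_, rfl⟩
  have b1 : B e' h' = 0 := by
    rw [he']
    simp only [map_add, map_smul, LinearMap.add_apply, LinearMap.smul_apply, smul_eq_mul, a1, a2',
      a3]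
    ring
  have b2 : B e' w₀ = -3 := by
    rw [he']
    simp only [map_add, map_smul, LinearMap.add_apply, LinearMap.smul_apply, smul_eq_mul, a2,
      he0, h00]
    ring
  have b3 : B e' e' = 4 := by
    rw [he']
    simp only [map_add, map_smul, LinearMap.add_apply, LinearMap.smul_apply, smul_eq_mul, a1, a2,
      a2', a3, a3', he0, h0e, h00, hd]
    linear_combination (-2) * hi2
  have b1' : B h' e' = 0 := by rw [hs, b1]
  have b2' : B w₀ e' = -3 := by rw [hs, b2]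
  refine ⟨w₀ + e' + h', 2 • w₀ + e' + 2 • h', ?_, ?_, ?_, ?_, ?_⟩ <;>
  · simp only [map_add, map_nsmul, LinearMap.add_apply, LinearMap.smul_apply, nsmul_eq_mul,
      a1, a2, a2', b1, b1', b2, b2', b3, h00]
    norm_num

/-- The rotation of order `3` of `A_2 = ⟨l₁, l₂⟩`, extended to `N`. -/
def rot (B : N →ₗ[ℤ] N →ₗ[ℤ] ℤ) (l₁ l₂ y : N) : N :=
  y - (B y l₁ + B y l₂) • l₁ - B y l₂ • l₂

theorem rot_isom (hs : ∀ x y, B x y = B y x) {l₁ l₂ : N} (hA : ATwo B l₁ l₂) (y z : N) :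
    B (rot B l₁ l₂ y) (rot B l₁ l₂ z) = B y z := by
  obtain ⟨h11, h22, h12⟩ := hA
  have h21 : B l₂ l₁ = -1 := by rw [hs, h12]
  have h1z : B l₁ z = B z l₁ := hs _ _
  have h2z : B l₂ z = B z l₂ := hs _ _
  unfold rot
  simp only [map_sub, map_smul, LinearMap.sub_apply, LinearMap.smul_apply, smul_eq_mul, h11, h12,
    h21, h22, h1z, h2z]
  ring

theorem rot_one {l₁ l₂ : N} (hA : ATwo B l₁ l₂) : rot B l₁ l₂ l₁ = l₂ := by
  obtain ⟨h11, h22, h12⟩ := hA
  unfold rot
  rw [h11, h12]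
  module

theorem rot_two (hs : ∀ x y, B x y = B y x) {l₁ l₂ : N} (hA : ATwo B l₁ l₂) :
    rot B l₁ l₂ l₂ = -l₁ - l₂ := by
  obtain ⟨h11, h22, h12⟩ := hA
  unfold rot
  rw [hs l₂ l₁, h12, h22]
  module

theorem rot_add (l₁ l₂ x y : N) : rot B l₁ l₂ (x + y) = rot B l₁ l₂ x + rot B l₁ l₂ y := by
  unfold rot
  simp only [map_add, LinearMap.add_apply]
  module

theorem rot_nsmul (l₁ l₂ x : N) : rot B l₁ l₂ (2 • x) = 2 • rot B l₁ l₂ x := by
  rw [two_nsmul, two_nsmul, rot_add]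

theorem rot_fix {l₁ l₂ v : N} (h1 : B v l₁ = 0) (h2 : B v l₂ = 0) : rot B l₁ l₂ v = v := by
  unfold rot
  rw [h1, h2]
  module

end Pool.Agent.LBL
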