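import Pool.Agent.LBL.Final

/-!
# Discriminant 18: the criterion in terms of labels modulo 9
-/

set_option autoImplicit false

namespace Pool.Agent.LBL

open Pool.Agent.DIX.Labels

variable {A : Type*} [AddCommGroup A] {B : A →ₗ[ℤ] A →ₗ[ℤ] ℤ} {h : A}

/-- The three conditions of `eighteen` are one condition for the labels modulo `9`. -/
theorem eighteen_label (hs : ∀ S T, B S T = B T S) {v : A} (hhv : B h v = 0) (hv : B v v = 6) :
    (∃ T, ¬ 3 ∣ B h T ∨ ¬ 3 ∣ B v T ∨ label B h T % 9 = 6) ↔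
      ∃ T, label B h T % 9 ≠ 0 ∧ label B h T % 9 ≠ 3 := by
  constructor
  · rintro ⟨T, hT⟩
    by_cases h1 : (3 : ℤ) ∣ B h T
    swap
    · refine ⟨T, ?_⟩
      have e1 : label B h T = 3 * B T T - B h T ^ 2 := rfl
      obtain ⟨b, hb⟩ : ∃ b, B h T ^ 2 = 3 * b + 1 := by
        rcases (show B h T % 3 = 1 ∨ B h T % 3 = 2 by omega) with e | e
        · obtain ⟨x, hx⟩ : ∃ x, B h T = 3 * x + 1 := ⟨B h T / 3, by omega⟩
          exact ⟨3 * x ^ 2 + 2 * x, by rw [hx]; ring⟩
        · obtain ⟨x, hx⟩ : ∃ x, B h T = 3 * x + 2 := ⟨B h T / 3, by omega⟩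
          exact ⟨3 * x ^ 2 + 4 * x + 1, by rw [hx]; ring⟩
      omega
    obtain ⟨s, hs'⟩ := h1
    by_cases h2 : (3 : ℤ) ∣ B v T
    · rcases hT with hT | hT | hT
      · exact absurd ⟨s, hs'⟩ hT
      · exact absurd h2 hT
      · exact ⟨T, by omega, by omega⟩
    · -- change `T` by a multiple of `v`
      obtain ⟨x, y, hxy⟩ : ∃ x y : ℤ, B T T + 2 * x * B v T = 3 * y + 2 := by
        rcases (show B v T % 3 = 1 ∨ B v T % 3 = 2 by omega) with e | e
        · refine ⟨B T T - 2, B T T - 2 + 2 * (B T T - 2) * (B v T / 3), ?_⟩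
          have e1 : B v T = 3 * (B v T / 3) + 1 := by omega
          obtain ⟨q, hq⟩ : ∃ q, q = B v T / 3 := ⟨_, rfl⟩
          rw [← hq] at e1 ⊢
          rw [e1]
          ring
        · refine ⟨2 - B T T, 2 - B T T + 2 * (2 - B T T) * (B v T / 3), ?_⟩
          have e1 : B v T = 3 * (B v T / 3) + 2 := by omega
          obtain ⟨q, hq⟩ : ∃ q, q = B v T / 3 := ⟨_, rfl⟩
          rw [← hq] at e1 ⊢
          rw [e1]
          ring
      have e2 : label B h (T + x • v) = 9 * (y + 2 * x ^ 2 - s ^ 2) + 6 := by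
        unfold label
        simp only [map_add, map_smul, LinearMap.add_apply, LinearMap.smul_apply, smul_eq_mul,
          hs T v, hhv, hv, hs']
        linear_combination 3 * hxy
      exact ⟨T + x • v, by omega, by omega⟩
  · rintro ⟨T, h0, h3⟩
    refine ⟨T, ?_⟩
    by_cases h1 : (3 : ℤ) ∣ B h T
    · right; right
      obtain ⟨s, hs'⟩ := h1
      have e1 : label B h T = 3 * (B T T - 3 * s ^ 2) := by
        unfold label
        rw [hs']
        ring
      omega
    · exact Or.inl h1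

end Pool.Agent.LBL
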