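import Pool.Agent.LBL.Three
import Pool.Agent.DIX.Labels

/-!
# The criterion of Hassett and Kuznetsov on the divisors of discriminant 8, 18 and 24
-/

set_option autoImplicit false

namespace Pool.Agent.LBL

open Pool.Agent.DIX.Labels

variable {A : Type*} [AddCommGroup A]

/-- The form `mukai B h` as a bilinear map. -/
def mk (B : A →ₗ[ℤ] A →ₗ[ℤ] ℤ) (h : A) : (ℤ × A) →ₗ[ℤ] (ℤ × A) →ₗ[ℤ] ℤ :=
  LinearMap.mk₂ ℤ (mukai B h)
    (by intro a b c; simp only [mukai, Prod.fst_add, Prod.snd_add, map_add,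
          LinearMap.add_apply]; ring)
    (by intro k a b; simp only [mukai, Prod.smul_fst, Prod.smul_snd, map_smul,
          LinearMap.smul_apply, smul_eq_mul]; ring)
    (by intro a b c; simp only [mukai, Prod.fst_add, Prod.snd_add, map_add]; ring)
    (by intro k a b; simp only [mukai, Prod.smul_fst, Prod.smul_snd, map_smul,
          smul_eq_mul]; ring)

theorem mk_apply (B : A →ₗ[ℤ] A →ₗ[ℤ] ℤ) (h : A) (v w : ℤ × A) :
    mk B h v w = mukai B h v w := rfl

variable {B : A →ₗ[ℤ] A →ₗ[ℤ] ℤ} {h : A}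

theorem mk_symm (hs : ∀ S T, B S T = B T S) (v w : ℤ × A) : mk B h v w = mk B h w v := by
  rw [mk_apply, mk_apply]
  unfold mukai
  rw [hs v.2 w.2]
  ring

theorem mk_even (hpar : ∀ T, Even (B T T - B h T)) (v : ℤ × A) : Even (mk B h v v) := by
  rw [mk_apply]
  unfold mukai
  obtain ⟨r, hr⟩ := hpar v.2
  obtain ⟨c, hc⟩ : ∃ c, B h v.2 * (B h v.2 - 1) = 2 * c := by
    rcases Int.even_or_odd' (B h v.2) with ⟨c, hc | hc⟩
    · exact ⟨c * (B h v.2 - 1), by rw [hc]; ring⟩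
    · exact ⟨B h v.2 * c, by rw [hc]; ring⟩
  refine ⟨v.1 * v.1 + v.1 * B h v.2 + c - r, ?_⟩
  linear_combination hc - hr

/-- `λ₁ = (-2, h)` and `λ₂ = (1, 0)`. -/
theorem mk_aTwo (hh : B h h = 3) :
    ATwo (mk B h) (-2, h) (1, 0) := by
  refine ⟨?_, ?_, ?_⟩ <;> rw [mk_apply] <;> unfold mukai <;>
    simp only [hh, map_zero] <;> norm_num

theorem mk_one (hs : ∀ S T, B S T = B T S) (hh : B h h = 3) (v : ℤ × A) :
    mk B h v (-2, h) = -v.1 := by
  rw [mk_apply]
  unfold mukai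
  simp only [hh, hs v.2 h]
  ring

theorem mk_two (v : ℤ × A) : mk B h v (1, 0) = 2 * v.1 + B h v.2 := by
  rw [mk_apply]
  unfold mukai
  simp only [map_zero]
  ring

theorem label_even (hpar : ∀ T, Even (B T T - B h T)) (T : A) : 2 ∣ label B h T := by
  obtain ⟨r, hr⟩ := hpar T
  obtain ⟨c, hc⟩ : ∃ c, B h T * (B h T - 1) = 2 * c := by
    rcases Int.even_or_odd' (B h T) with ⟨c, hc | hc⟩
    · exact ⟨c * (B h T - 1), by rw [hc]; ring⟩
    · exact ⟨B h T * c, by rw [hc]; ring⟩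
  refine ⟨3 * r + B h T - c, ?_⟩
  unfold label
  linear_combination 3 * hr - hc

/-- `3 (v, v) = 2 (3 a² + 3 a t + t²) - label T` for `v = (a, T)`, `t = h · T`. -/
theorem three_mk (a : ℤ) (T : A) :
    3 * mk B h (a, T) (a, T) = 2 * (3 * a ^ 2 + 3 * a * B h T + B h T ^ 2) - label B h T := by
  rw [mk_apply]
  unfold mukai label
  simp only
  ring

theorem hk_iff : HassettKuznetsov B h ↔ HasU (mk B h) := Iff.rfl

/-- The criterion of Hassett and Kuznetsov gives a class with label `2` modulo `4`. -/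
theorem label_of_hk (hs : ∀ S T, B S T = B T S) (hpar : ∀ T, Even (B T T - B h T))
    (hK : HassettKuznetsov B h) : ∃ T, label B h T % 4 = 2 := by
  by_contra hcon
  push Not at hcon
  have h4 : ∀ T, 4 ∣ label B h T := by
    intro T
    have e1 := label_even hpar T
    have e2 := hcon T
    omega
  obtain ⟨e, f, he, hf, hef⟩ := hK
  -- every vector whose square is divisible by `4` has even coordinates
  have key : ∀ v : ℤ × A, mukai B h v v = 0 → 2 ∣ v.1 ∧ 2 ∣ B h v.2 := by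
    rintro ⟨a, T⟩ hv
    have e1 := three_mk (B := B) (h := h) a T
    rw [mk_apply, hv] at e1
    obtain ⟨c, hc⟩ := h4 T
    have e2 : 3 * a ^ 2 + 3 * a * B h T + B h T ^ 2 = 2 * c := by linarith
    simp only
    rcases Int.even_or_odd' a with ⟨x, rfl | rfl⟩ <;>
      rcases Int.even_or_odd' (B h T) with ⟨y, hy | hy⟩ <;> rw [hy] at e2 ⊢
    · exact ⟨⟨x, rfl⟩, ⟨y, rfl⟩⟩
    · exfalso
      have : 3 * (2 * x) ^ 2 + 3 * (2 * x) * (2 * y + 1) + (2 * y + 1) ^ 2 =
        2 * (6 * x ^ 2 + 6 * x * y + 3 * x + 2 * y ^ 2 + 2 * y) + 1 := by ring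
      omega
    · exfalso
      have : 3 * (2 * x + 1) ^ 2 + 3 * (2 * x + 1) * (2 * y) + (2 * y) ^ 2 =
        2 * (6 * x ^ 2 + 6 * x + 1 + 6 * x * y + 3 * y + 2 * y ^ 2) + 1 := by ring
      omega
    · exfalso
      have : 3 * (2 * x + 1) ^ 2 + 3 * (2 * x + 1) * (2 * y + 1) + (2 * y + 1) ^ 2 =
        2 * (6 * x ^ 2 + 9 * x + 3 + 6 * x * y + 5 * y + 2 * y ^ 2) + 1 := by ring
      omega
  obtain ⟨⟨a, ha⟩, ⟨x, hx⟩⟩ := key e he
  obtain ⟨⟨b, hb⟩, ⟨y, hy⟩⟩ := key f hf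
  obtain ⟨c1, hc1⟩ := h4 e.2
  obtain ⟨c2, hc2⟩ := h4 f.2
  obtain ⟨c3, hc3⟩ := h4 (e.2 + f.2)
  have e4 : label B h (e.2 + f.2) = label B h e.2 + label B h f.2 +
      2 * (3 * B e.2 f.2 - B h e.2 * B h f.2) := by
    unfold label
    simp only [map_add, LinearMap.add_apply, hs f.2 e.2]
    ring
  have e5 : 3 * B e.2 f.2 - B h e.2 * B h f.2 = 2 * (c3 - c1 - c2) := by linarith
  unfold mukai at hef
  rw [ha, hb, hx, hy] at hef
  rw [hx, hy] at e5
  have e2 : (3 : ℤ) = 2 * (12 * a * b + 6 * a * y + 6 * b * x + 4 * x * y - (c3 - c1 - c2)) := by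
    linear_combination -3 * hef - e5
  omega

/-- A class with label `2` modulo `4` gives a vector whose square is divisible by `4` and which
has an odd product. -/
theorem vector_of_label (hs : ∀ S T, B S T = B T S) (hh : B h h = 3)
    {T : A} (hT : label B h T % 4 = 2) :
    ∃ w z : ℤ × A, 4 ∣ mk B h w w ∧ mk B h w z % 2 = 1 := by
  rcases Int.even_or_odd' (B h T) with ⟨y, hy | hy⟩
  · refine ⟨(1, T), (-2, h), ?_, ?_⟩
    · have e1 := three_mk (B := B) (h := h) 1 T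
      rw [hy] at e1
      have e2 : 2 * (3 * 1 ^ 2 + 3 * 1 * (2 * y) + (2 * y) ^ 2) =
        4 * (2 * y ^ 2 + 3 * y + 1) + 2 := by ring
      omega
    · rw [mk_one hs hh]
      norm_num
  · refine ⟨(0, T), (1, 0), ?_, ?_⟩
    · have e1 := three_mk (B := B) (h := h) 0 T
      rw [hy] at e1
      have e2 : 2 * (3 * 0 ^ 2 + 3 * 0 * (2 * y + 1) + (2 * y + 1) ^ 2) =
        4 * (2 * y ^ 2 + 2 * y) + 2 := by ring
      omega
    · rw [mk_two, hy]
      simp only
      omega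

/-- `w₀` has an odd product, or there is an isotropic vector `y` with `(y, w₀) = -2` and an odd
product. -/
def SplitOrLift (B : A →ₗ[ℤ] A →ₗ[ℤ] ℤ) (h : A) (w₀ : ℤ × A) : Prop :=
  (∃ y, mukai B h y w₀ % 2 = 1) ∨
    ∃ y, mukai B h y y = 0 ∧ mukai B h y w₀ = -2 ∧ ∃ z, mukai B h y z % 2 = 1

/-- The equivalence for an isotropic vector `w₀` and `(u, w₀) = -2`. -/
theorem iff_two (hs : ∀ S T, B S T = B T S) (hh : B h h = 3)
    (hpar : ∀ T, Even (B T T - B h T)) {w₀ u : ℤ × A} (h0 : mk B h w₀ w₀ = 0)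
    (hu : mk B h u w₀ = -2) :
    (HassettKuznetsov B h ↔ ∃ T, label B h T % 4 = 2) ∧
      (HassettKuznetsov B h ↔ SplitOrLift B h w₀) := by
  have h1 : (∃ T, label B h T % 4 = 2) → SplitOrLift B h w₀ := by
    rintro ⟨T, hT⟩
    obtain ⟨w, z, hw, hwz⟩ := vector_of_label hs hh hT
    exact lift_two (mk_symm hs) h0 hu (mk_even hpar u) (mk_even hpar) hw hwz
  have h2 : SplitOrLift B h w₀ → HassettKuznetsov B h := fun hw =>
    hasU_of_lift_two (mk_symm hs) (mk_even hpar) h0 hu hw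
  have h3 := label_of_hk (h := h) hs hpar
  exact ⟨⟨h3, fun hT => h2 (h1 hT)⟩, ⟨fun hK => h1 (h3 hK), h2⟩⟩

/-- Discriminant 8: `P` has the products of a plane, `w₀ = λ₁ + (0, P)`. -/
theorem eight (hs : ∀ S T, B S T = B T S) (hh : B h h = 3)
    (hpar : ∀ T, Even (B T T - B h T)) {P : A} (hP : B P P = 3) (hhP : B h P = 1) :
    (HassettKuznetsov B h ↔ ∃ T, label B h T % 4 = 2) ∧
      (HassettKuznetsov B h ↔ SplitOrLift B h (-2, h + P)) := by
  have hPh : B P h = 1 := by rw [hs, hhP]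
  refine iff_two hs hh hpar (u := (0, P)) ?_ ?_ <;> rw [mk_apply] <;> unfold mukai <;>
    simp only [map_add, LinearMap.add_apply, hh, hP, hhP, hPh] <;> norm_num

/-- Discriminant 24: `v` is primitive with square `8`, `w₀ = 2 λ₁ + (0, v)`. -/
theorem twentyfour (hs : ∀ S T, B S T = B T S) (hh : B h h = 3)
    (hpar : ∀ T, Even (B T T - B h T)) {v : A} (hv : B v v = 8) (hhv : B h v = 0) :
    (HassettKuznetsov B h ↔ ∃ T, label B h T % 4 = 2) ∧
      (HassettKuznetsov B h ↔ SplitOrLift B h (-4, 2 • h + v)) := by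
  have hvh : B v h = 0 := by rw [hs, hhv]
  refine iff_two hs hh hpar (u := (1, 0)) ?_ ?_ <;> rw [mk_apply] <;> unfold mukai <;>
    simp only [map_add, map_nsmul, map_zero, LinearMap.add_apply, LinearMap.smul_apply,
      LinearMap.zero_apply, hh, hv, hhv, hvh] <;> norm_num

/-- `w₀` has a product prime to `3`, or there are isotropic vectors `f, f'` with `(f, f') = -1`,
`(f, w₀) = (f', w₀) = -3`. -/
def SplitOrPairA (B : A →ₗ[ℤ] A →ₗ[ℤ] ℤ) (h : A) (w₀ : ℤ × A) : Prop :=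
  (∃ y, ¬ 3 ∣ mukai B h y w₀) ∨
    ∃ f f', mukai B h f f = 0 ∧ mukai B h f' f' = 0 ∧ mukai B h f f' = -1 ∧
      mukai B h f w₀ = -3 ∧ mukai B h f' w₀ = -3

/-- Discriminant 18: `v` is primitive with square `6`, `w₀ = λ₁ + 2 λ₂ ± (0, v)`. -/
theorem eighteen (hs : ∀ S T, B S T = B T S) (hh : B h h = 3)
    (hpar : ∀ T, Even (B T T - B h T)) {v : A} (hv : B v v = 6) (hhv : B h v = 0) :
    (HassettKuznetsov B h ↔
      ∃ T, ¬ 3 ∣ B h T ∨ ¬ 3 ∣ B v T ∨ label B h T % 9 = 6) ∧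
    (HassettKuznetsov B h ↔
      SplitOrPairA B h (0, h + v) ∨ SplitOrPairA B h (0, h - v)) := by
  have hvh : B v h = 0 := by rw [hs, hhv]
  have hp : ((-2, h) + 2 • (1, 0) + (0, v) : ℤ × A) = (0, h + v) := by ext <;> simp
  have hm : ((-2, h) + 2 • (1, 0) - (0, v) : ℤ × A) = (0, h - v) := by ext <;> simp
  have hv' : mk B h (0, v) (0, v) = -6 := by
    rw [mk_apply]; unfold mukai; simp only [hv, hhv]; norm_num
  have hv1 : mk B h (0, v) (-2, h) = 0 := by rw [mk_one hs hh]; norm_num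
  have hv2 : mk B h (0, v) (1, 0) = 0 := by rw [mk_two, hhv]; norm_num
  have hp0 : mk B h (0, h + v) (0, h + v) = 0 := by
    rw [mk_apply]; unfold mukai
    simp only [map_add, LinearMap.add_apply, hh, hv, hhv, hvh]; norm_num
  have hm0 : mk B h (0, h - v) (0, h - v) = 0 := by
    rw [mk_apply]; unfold mukai
    simp only [map_sub, LinearMap.sub_apply, hh, hv, hhv, hvh]; norm_num
  have hpu : mk B h (-1, 0) (0, h + v) = -3 := by
    rw [mk_apply]; unfold mukai
    simp only [map_add, map_zero, LinearMap.zero_apply, hh, hhv]; norm_num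
  have hmu : mk B h (-1, 0) (0, h - v) = -3 := by
    rw [mk_apply]; unfold mukai
    simp only [map_sub, map_zero, LinearMap.zero_apply, hh, hhv]; norm_num
  -- a vector `w` with the two local properties is enough
  have h1 : (∃ w : ℤ × A, 6 ∣ mk B h w w ∧ ¬ 3 ∣ mk B h w (-2, h)) →
      SplitOrPairA B h (0, h + v) ∨ SplitOrPairA B h (0, h - v) := by
    rintro ⟨w, hw, hw1⟩
    have := lift_three (mk_symm hs) (mk_aTwo hh) hv' hv1 hv2 hw hw1
    rw [hp, hm] at this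
    exact this
  have h2 : SplitOrPairA B h (0, h + v) ∨ SplitOrPairA B h (0, h - v) →
      HassettKuznetsov B h := by
    rintro (hw | hw)
    · exact hasU_of_splitOrPair (mk_symm hs) (mk_even hpar) hp0 hpu hw
    · exact hasU_of_splitOrPair (mk_symm hs) (mk_even hpar) hm0 hmu hw
  have h3 : HassettKuznetsov B h → ∃ w : ℤ × A, mk B h w w = 0 ∧ ¬ 3 ∣ mk B h w (-2, h) :=
    fun hK => exists_w_of_hasU (mk_symm hs) (mk_aTwo hh).1 hK
  refine ⟨⟨?_, ?_⟩, ⟨?_, h2⟩⟩
  · intro hK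
    obtain ⟨⟨a, T⟩, hw, hw1⟩ := h3 hK
    rw [mk_one hs hh] at hw1
    simp only at hw1
    by_cases hT : (3 : ℤ) ∣ B h T
    · refine ⟨T, Or.inr (Or.inr ?_)⟩
      obtain ⟨s, hs'⟩ := hT
      have e1 := three_mk (B := B) (h := h) a T
      rw [hw, hs'] at e1
      obtain ⟨b, hb⟩ : ∃ b, a ^ 2 = 3 * b + 1 := by
        rcases (show a % 3 = 1 ∨ a % 3 = 2 by omega) with e | e
        · obtain ⟨x, rfl⟩ : ∃ x, a = 3 * x + 1 := ⟨a / 3, by omega⟩
          exact ⟨3 * x ^ 2 + 2 * x, by ring⟩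
        · obtain ⟨x, rfl⟩ : ∃ x, a = 3 * x + 2 := ⟨a / 3, by omega⟩
          exact ⟨3 * x ^ 2 + 4 * x + 1, by ring⟩
      have e2 : label B h T = 9 * (2 * b + 2 * a * s + 2 * s ^ 2) + 6 := by
        linear_combination e1 + 6 * hb
      omega
    · exact ⟨T, Or.inl hT⟩
  · rintro ⟨T, hT⟩
    apply h2
    have c1 : mukai B h (0, T) (0, h + v) = 2 * B h T - B v T := by
      unfold mukai
      simp only [map_add, hh, hhv, hs T h, hs T v]
      ring
    have c2 : mukai B h (0, T) (0, h - v) = 2 * B h T + B v T := by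
      unfold mukai
      simp only [map_sub, hh, hhv, hs T h, hs T v]
      ring
    by_cases d1 : (3 : ℤ) ∣ 2 * B h T - B v T
    swap
    · exact Or.inl (Or.inl ⟨(0, T), by rw [c1]; exact d1⟩)
    by_cases d2 : (3 : ℤ) ∣ 2 * B h T + B v T
    swap
    · exact Or.inr (Or.inl ⟨(0, T), by rw [c2]; exact d2⟩)
    have d3 : (3 : ℤ) ∣ B h T := by omega
    have d4 : (3 : ℤ) ∣ B v T := by omega
    rcases hT with hT | hT | hT
    · exact absurd d3 hT
    · exact absurd d4 hT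
    apply h1
    refine ⟨(1, T), ?_, ?_⟩
    · have e1 := three_mk (B := B) (h := h) 1 T
      obtain ⟨s, hs'⟩ := d3
      rw [hs'] at e1
      have e2 := label_even hpar T
      have e3 : 2 * (3 * 1 ^ 2 + 3 * 1 * (3 * s) + (3 * s) ^ 2) =
        18 * (s ^ 2 + s) + 6 := by ring
      omega
    · rw [mk_one hs hh]
      norm_num
  · intro hK
    obtain ⟨w, hw, hw1⟩ := h3 hK
    exact h1 ⟨w, by rw [hw]; exact dvd_zero _, hw1⟩

end Pool.Agent.LBL
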