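import Mathlib

/-!
# Rank four: infinitely many saturated sublattices of rank three with large discriminant

`A` is an abelian group with a positive definite integral form, `h, v, T, U` are independent.
`sat_inj`: the saturations of `⟨h, v, T + m U⟩`, `m` an integer, are pairwise different.
`rank_four`: the Gram determinant of three independent elements of this saturation is at least
`m ^ 2 / C`, with a constant `C` which does not depend on `m`.
-/

set_option autoImplicit false

namespace Pool.Agent.LBL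

variable {A : Type*} [AddCommGroup A]

/-- The elements with a nonzero multiple in the span of three elements. -/
def sat (a b c : A) : AddSubgroup A where
  carrier := {x | ∃ n : ℤ, n ≠ 0 ∧ ∃ p q r : ℤ, n • x = p • a + q • b + r • c}
  zero_mem' := ⟨1, one_ne_zero, 0, 0, 0, by simp⟩
  add_mem' := by
    rintro x y ⟨n, hn, p, q, r, h⟩ ⟨n', hn', p', q', r', h'⟩
    refine ⟨n * n', mul_ne_zero hn hn', n' * p + n * p', n' * q + n * q', n' * r + n * r', ?_⟩
    have e1 : (n * n') • x = n' • (n • x) := by rw [smul_smul, mul_comm]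
    have e2 : (n * n') • y = n • (n' • y) := by rw [smul_smul]
    rw [smul_add, e1, e2, h, h']
    module
  neg_mem' := by
    rintro x ⟨n, hn, p, q, r, h⟩
    exact ⟨n, hn, -p, -q, -r, by rw [smul_neg, h]; module⟩

theorem mem_sat {a b c x : A} : x ∈ sat a b c ↔
    ∃ n : ℤ, n ≠ 0 ∧ ∃ p q r : ℤ, n • x = p • a + q • b + r • c := Iff.rfl

variable (B : A →ₗ[ℤ] A →ₗ[ℤ] ℤ)

/-- The Gram determinant of three elements. -/
def gram (x y z : A) : ℤ :=
  !![B x x, B x y, B x z; B y x, B y y, B y z; B z x, B z y, B z z].det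

/-- The Gram determinant of two elements. -/
def g2 (x y : A) : ℤ := B x x * B y y - B x y ^ 2

/-- A multiple of the orthogonal projection to the complement of two elements. -/
def prj (h v w : A) : A := g2 B h v • w - (B w h * B v v - B w v * B h v) • h -
  (B w v * B h h - B w h * B h v) • v

variable {B}

section

variable (hs : ∀ x y, B x y = B y x)

include hs

theorem gram_eq (x y z : A) : gram B x y z = B x x * (B y y * B z z - B y z ^ 2) -
    B x y * (B x y * B z z - B y z * B x z) + B x z * (B x y * B y z - B y y * B x z) := by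
  unfold gram
  rw [Matrix.det_fin_three]
  simp
  rw [hs y x, hs z x, hs z y]
  ring

omit hs in
theorem prj_app (h v w y : A) : B (prj B h v w) y = g2 B h v * B w y -
    (B w h * B v v - B w v * B h v) * B h y - (B w v * B h h - B w h * B h v) * B v y := by
  unfold prj
  simp only [map_sub, map_smul, LinearMap.sub_apply, LinearMap.smul_apply, smul_eq_mul]

theorem prj_h (h v w : A) : B (prj B h v w) h = 0 := by
  rw [prj_app, hs v h, g2]
  ring

omit hs in
theorem prj_v (h v w : A) : B (prj B h v w) v = 0 := by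
  rw [prj_app, g2]
  ring

theorem prj_self (h v w : A) : B (prj B h v w) w = gram B h v w := by
  rw [prj_app, gram_eq hs, g2, hs w h, hs w v]
  ring

theorem prj_prj (h v w y : A) : B (prj B h v w) (prj B h v y) = g2 B h v * B (prj B h v w) y := by
  have h1 : prj B h v y = g2 B h v • y - (B y h * B v v - B y v * B h v) • h -
    (B y v * B h h - B y h * B h v) • v := rfl
  conv_lhs => rw [h1]
  simp only [map_sub, map_smul, smul_eq_mul]
  rw [prj_h hs, prj_v]
  ring

theorem prj_sq (h v w : A) : B (prj B h v w) (prj B h v w) = g2 B h v * gram B h v w := by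
  rw [prj_prj hs, prj_self hs]

theorem g2_sq (x y : A) : B (B x x • y - B x y • x) (B x x • y - B x y • x) =
    B x x * g2 B x y := by
  simp only [map_sub, map_smul, LinearMap.sub_apply, LinearMap.smul_apply, smul_eq_mul]
  rw [hs y x, g2]
  ring

theorem gram_smul (a b : ℤ) (x y z : A) :
    gram B (a • x) (b • y) z = a ^ 2 * b ^ 2 * gram B x y z := by
  rw [gram_eq hs, gram_eq hs]
  simp only [map_smul, LinearMap.smul_apply, smul_eq_mul]
  ring

theorem gram_smul' (a : ℤ) (x y z : A) : gram B x y (a • z) = a ^ 2 * gram B x y z := by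
  rw [gram_eq hs, gram_eq hs]
  simp only [map_smul, LinearMap.smul_apply, smul_eq_mul]
  ring

theorem gram_comb (p q p' q' : ℤ) (x y z : A) :
    gram B (p • x + q • y) (p' • x + q' • y) z = (p * q' - q * p') ^ 2 * gram B x y z := by
  rw [gram_eq hs, gram_eq hs]
  simp only [map_add, map_smul, LinearMap.add_apply, LinearMap.smul_apply, smul_eq_mul]
  rw [hs y x]
  ring

theorem gram_comb' (p q p' q' : ℤ) (x y z : A) :
    gram B x (p • y + q • z) (p' • y + q' • z) = (p * q' - q * p') ^ 2 * gram B x y z := by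
  rw [gram_eq hs, gram_eq hs]
  simp only [map_add, map_smul, LinearMap.add_apply, LinearMap.smul_apply, smul_eq_mul]
  rw [hs z y]
  ring

theorem gram_dep (p q : ℤ) (x y : A) : gram B x y (p • x + q • y) = 0 := by
  rw [gram_eq hs]
  simp only [map_add, map_smul, LinearMap.add_apply, LinearMap.smul_apply, smul_eq_mul]
  rw [hs y x]
  ring

theorem g2_comb (p q p' q' : ℤ) (x y : A) :
    g2 B (p • x + q • y) (p' • x + q' • y) = (p * q' - q * p') ^ 2 * g2 B x y := by
  unfold g2
  simp only [map_add, map_smul, LinearMap.add_apply, LinearMap.smul_apply, smul_eq_mul]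
  rw [hs y x]
  ring

omit hs in
theorem g2_smul (a b : ℤ) (x y : A) : g2 B (a • x) (b • y) = a ^ 2 * b ^ 2 * g2 B x y := by
  unfold g2
  simp only [map_smul, LinearMap.smul_apply, smul_eq_mul]
  ring

/-- two elements of the plane of `h` and `v` -/
theorem gram_mul {h v a b t : A} {n n' p q p' q' : ℤ} (hn : n ≠ 0) (hn' : n' ≠ 0)
    (ha : n • a = p • h + q • v) (hb : n' • b = p' • h + q' • v) :
    gram B a b t * g2 B h v = g2 B a b * gram B h v t := by
  have h1 : n ^ 2 * n' ^ 2 * gram B a b t = (p * q' - q * p') ^ 2 * gram B h v t := by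
    rw [← gram_smul hs, ha, hb, gram_comb hs]
  have h2 : n ^ 2 * n' ^ 2 * g2 B a b = (p * q' - q * p') ^ 2 * g2 B h v := by
    rw [← g2_smul, ha, hb, g2_comb hs]
  have h3 : n ^ 2 * n' ^ 2 ≠ 0 := mul_ne_zero (pow_ne_zero 2 hn) (pow_ne_zero 2 hn')
  refine mul_left_cancel₀ h3 ?_
  linear_combination g2 B h v * h1 - gram B h v t * h2

variable (hp : ∀ x, x ≠ 0 → 0 < B x x)

include hp

omit hs in
theorem nonneg (x : A) : 0 ≤ B x x := by
  by_cases h : x = 0
  · rw [h, map_zero]
  · exact (hp x h).le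

theorem g2_nonneg (x y : A) : 0 ≤ g2 B x y := by
  by_cases h : x = 0
  · rw [h]
    unfold g2
    simp
  · have h1 := nonneg hp (B x x • y - B x y • x)
    rw [g2_sq hs] at h1
    exact nonneg_of_mul_nonneg_right h1 (hp x h)

theorem cauchy (x y : A) : B x y ^ 2 ≤ B x x * B y y := by
  have := g2_nonneg hs hp x y
  unfold g2 at this
  linarith

theorem g2_pos {x y : A} (hi : ∀ a b : ℤ, a • x + b • y = 0 → b = 0) (hx : x ≠ 0) :
    0 < g2 B x y := by
  have hne : B x x • y - B x y • x ≠ 0 := fun h => by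
    have h1 := hi (-(B x y)) (B x x) (by rw [← h]; module)
    exact (hp x hx).ne' h1
  have h1 := hp _ hne
  rw [g2_sq hs] at h1
  exact (mul_pos_iff_of_pos_left (hp x hx)).1 h1

theorem gram_nonneg {h v : A} (hg : 0 < g2 B h v) (w : A) : 0 ≤ gram B h v w := by
  have h1 := nonneg hp (prj B h v w)
  rw [prj_sq hs] at h1
  exact nonneg_of_mul_nonneg_right h1 hg

theorem gram_pos {x y z : A} (hg : 0 < g2 B x y)
    (hi : ∀ a b c : ℤ, a • x + b • y + c • z = 0 → c = 0) : 0 < gram B x y z := by
  have hne : prj B x y z ≠ 0 := fun h => by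
    have h1 := hi (-(B z x * B y y - B z y * B x y)) (-(B z y * B x x - B z x * B x y))
      (g2 B x y) (by rw [← h]; unfold prj; module)
    exact hg.ne' h1
  have h1 := hp _ hne
  rw [prj_sq hs] at h1
  exact (mul_pos_iff_of_pos_left hg).1 h1

end

/-- A unimodular change of two elements such that a functional vanishes at the first one. -/
theorem bez (l : A →ₗ[ℤ] ℤ) (x y : A) : ∃ p q p' q' : ℤ, p * q' - q * p' = 1 ∧
    l (p • x + q • y) = 0 := by
  by_cases h : l x = 0
  · exact ⟨1, 0, 0, 1, by norm_num, by simpa using h⟩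
  · obtain ⟨x', hx⟩ : gcd (l x) (l y) ∣ l x := gcd_dvd_left _ _
    obtain ⟨y', hy⟩ : gcd (l x) (l y) ∣ l y := gcd_dvd_right _ _
    have hg : gcd (l x) (l y) ≠ 0 := fun h0 => h (by rw [hx, h0, zero_mul])
    obtain ⟨u, w, huw⟩ := exists_gcd_eq_mul_add_mul (l x) (l y)
    have h1 : u * x' + w * y' = 1 := by
      refine mul_left_cancel₀ hg ?_
      have h2 : gcd (l x) (l y) * (u * x' + w * y') =
          (gcd (l x) (l y) * x') * u + (gcd (l x) (l y) * y') * w := by ring
      rw [h2, ← hx, ← hy, mul_one]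
      exact huw.symm
    refine ⟨y', -x', u, w, by linarith, ?_⟩
    rw [map_add, map_smul, map_smul, smul_eq_mul, smul_eq_mul]
    generalize gcd (l x) (l y) = g at hx hy
    rw [hx, hy]
    ring

theorem ind_four {x y z w : A} (hi : LinearIndependent ℤ ![x, y, z, w]) {a b c d : ℤ}
    (h : a • x + b • y + c • z + d • w = 0) : a = 0 ∧ b = 0 ∧ c = 0 ∧ d = 0 := by
  rw [Fintype.linearIndependent_iff] at hi
  have h1 := hi ![a, b, c, d] (by simpa [Fin.sum_univ_four] using h)
  exact ⟨h1 0, h1 1, h1 2, h1 3⟩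

theorem ind_three {x y z : A} (hi : LinearIndependent ℤ ![x, y, z]) {a b c : ℤ}
    (h : a • x + b • y + c • z = 0) : a = 0 ∧ b = 0 ∧ c = 0 := by
  rw [Fintype.linearIndependent_iff] at hi
  have h1 := hi ![a, b, c] (by simpa [Fin.sum_univ_three] using h)
  exact ⟨h1 0, h1 1, h1 2⟩

/-- **The saturations are pairwise different.** -/
theorem sat_inj {h v T U : A} (hi : LinearIndependent ℤ ![h, v, T, U]) {m m' : ℤ}
    (he : sat h v (T + m • U) = sat h v (T + m' • U)) : m = m' := by
  have h1 : T + m • U ∈ sat h v (T + m' • U) := by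
    rw [← he]
    exact ⟨1, one_ne_zero, 0, 0, 1, by module⟩
  obtain ⟨n, hn, p, q, r, h2⟩ := h1
  have h3 := ind_four hi (a := -p) (b := -q) (c := n - r) (d := n * m - r * m') (by
    have h4 : n • (T + m • U) - (p • h + q • v + r • (T + m' • U)) = 0 := sub_eq_zero.2 h2
    rw [← h4]
    module)
  have h4 : n = r := by linarith [h3.2.2.1]
  have h5 := h3.2.2.2
  rw [← h4, ← mul_sub] at h5
  exact sub_eq_zero.1 ((mul_eq_zero.1 h5).resolve_left hn)

/-- **The discriminants.** -/
theorem rank_four (hs : ∀ x y, B x y = B y x) (hp : ∀ x, x ≠ 0 → 0 < B x x) {h v T U : A}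
    (hi : LinearIndependent ℤ ![h, v, T, U]) : ∃ C : ℤ, 0 < C ∧ ∀ (m : ℤ) (x y z : A),
      x ∈ sat h v (T + m • U) → y ∈ sat h v (T + m • U) → z ∈ sat h v (T + m • U) →
      LinearIndependent ℤ ![x, y, z] → m ^ 2 ≤ C * gram B x y z := by
  have i4 := fun {a b c d : ℤ} => ind_four hi (a := a) (b := b) (c := c) (d := d)
  have hh : h ≠ 0 := fun h0 => by
    have := i4 (a := 1) (b := 0) (c := 0) (d := 0) (by rw [h0]; module)
    exact one_ne_zero this.1
  have hg : 0 < g2 B h v := g2_pos hs hp (fun a b hab => by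
    have := i4 (a := a) (b := b) (c := 0) (d := 0) (by rw [← hab]; module)
    exact this.2.1) hh
  obtain ⟨g, hgd⟩ : ∃ g, g = g2 B h v := ⟨_, rfl⟩
  obtain ⟨P, hP⟩ : ∃ P : A →ₗ[ℤ] A, ∀ w, P w = prj B h v w := ⟨{
    toFun := prj B h v
    map_add' := fun x y => by
      unfold prj
      simp only [map_add, LinearMap.add_apply]
      module
    map_smul' := fun n x => by
      unfold prj
      simp only [map_smul, LinearMap.smul_apply, smul_eq_mul, RingHom.id_apply]
      module }, fun w => rfl⟩
  have hPh : P h = 0 := by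
    rw [hP]
    unfold prj g2
    module
  have hPv : P v = 0 := by
    rw [hP]
    unfold prj g2
    rw [hs v h]
    module
  -- the projections of `T` and `U` are independent
  have hTU : ∀ a b : ℤ, a • P T + b • P U = 0 → a = 0 ∧ b = 0 := fun a b hab => by
    have h1 : a • T + b • U = a • T + b • U := rfl
    have h2 : P (a • T + b • U) = 0 := by rw [map_add, map_smul, map_smul, hab]
    rw [hP] at h2
    unfold prj at h2
    rw [← hgd] at h2
    generalize B (a • T + b • U) h * B v v - B (a • T + b • U) v * B h v = α at h2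
    generalize B (a • T + b • U) v * B h h - B (a • T + b • U) h * B h v = β at h2
    have h3 := i4 (a := -α) (b := -β) (c := g * a) (d := g * b) (by rw [← h2]; module)
    have hg0 : g ≠ 0 := by rw [hgd]; exact hg.ne'
    exact ⟨(mul_eq_zero.1 h3.2.2.1).resolve_left hg0, (mul_eq_zero.1 h3.2.2.2).resolve_left hg0⟩
  have hT0 : P T ≠ 0 := fun h0 => by
    have := hTU 1 0 (by rw [h0]; module)
    exact one_ne_zero this.1
  obtain ⟨Δ, hΔ⟩ : ∃ Δ, Δ = g2 B (P T) (P U) := ⟨_, rfl⟩
  have hΔ0 : 0 < Δ := by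
    rw [hΔ]
    exact g2_pos hs hp (fun a b hab => (hTU a b hab).2) hT0
  -- the dual vectors
  obtain ⟨f, hf⟩ : ∃ f : A, f = B (P U) (P U) • P T - B (P T) (P U) • P U := ⟨_, rfl⟩
  obtain ⟨f', hf'⟩ : ∃ f' : A, f' = B (P T) (P T) • P U - B (P T) (P U) • P T := ⟨_, rfl⟩
  have e1 : B f (P T) = Δ := by
    rw [hf, hΔ, g2]
    simp only [map_sub, map_smul, LinearMap.sub_apply, LinearMap.smul_apply, smul_eq_mul]
    rw [hs (P U) (P T)]
    ring
  have e2 : B f (P U) = 0 := by
    rw [hf]
    simp only [map_sub, map_smul, LinearMap.sub_apply, LinearMap.smul_apply, smul_eq_mul]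
    ring
  have e3 : B f' (P T) = 0 := by
    rw [hf']
    simp only [map_sub, map_smul, LinearMap.sub_apply, LinearMap.smul_apply, smul_eq_mul]
    rw [hs (P U) (P T)]
    ring
  have e4 : B f' (P U) = Δ := by
    rw [hf', hΔ, g2]
    simp only [map_sub, map_smul, LinearMap.sub_apply, LinearMap.smul_apply, smul_eq_mul]
    ring
  have hf0 : f' ≠ 0 := fun h0 => by
    rw [h0] at e4
    simp at e4
    exact hΔ0.ne e4
  have hF : 0 < B f' f' := hp _ hf0
  have hgp : 0 < g := by rw [hgd]; exact hg
  refine ⟨B f' f' * g ^ 2, mul_pos hF (pow_pos hgp 2), fun m x y z hx hy hz hxyz => ?_⟩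
  -- the functional
  let l : A →ₗ[ℤ] ℤ := (B f).comp P
  have hl : ∀ t, l t = B f (P t) := fun t => rfl
  have key : ∀ t ∈ sat h v (T + m • U), B f' (P t) = m * l t := fun t ht => by
    obtain ⟨n, hn, p, q, r, h1⟩ := ht
    have h2 : n • P t = r • (P T + m • P U) := by
      rw [← map_smul, h1]
      simp only [map_add, map_smul, hPh, hPv]
      module
    have h3 := congrArg (B f) h2
    have h4 := congrArg (B f') h2
    simp only [map_add, map_smul, smul_eq_mul, e1, e2, e3, e4] at h3 h4
    refine mul_left_cancel₀ hn ?_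
    rw [hl]
    linear_combination h4 - m * h3
  have plane : ∀ t ∈ sat h v (T + m • U), l t = 0 →
      ∃ n : ℤ, n ≠ 0 ∧ ∃ p q : ℤ, n • t = p • h + q • v := fun t ht h0 => by
    obtain ⟨n, hn, p, q, r, h1⟩ := ht
    have h2 : n • P t = r • (P T + m • P U) := by
      rw [← map_smul, h1]
      simp only [map_add, map_smul, hPh, hPv]
      module
    have h3 := congrArg (B f) h2
    simp only [map_add, map_smul, smul_eq_mul, e1, e2] at h3
    rw [← hl, h0] at h3
    have h4 : r = 0 := by
      have h5 : r * Δ = 0 := by linarith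
      exact (mul_eq_zero.1 h5).resolve_right hΔ0.ne'
    exact ⟨n, hn, p, q, by rw [h1, h4]; module⟩
  -- the reduction
  obtain ⟨p1, q1, p1', q1', d1, l1⟩ := bez l x y
  obtain ⟨p2, q2, p2', q2', d2, l2⟩ := bez l (p1' • x + q1' • y) z
  obtain ⟨a, ha⟩ : ∃ a, a = p1 • x + q1 • y := ⟨_, rfl⟩
  obtain ⟨c, hc⟩ : ∃ c, c = p1' • x + q1' • y := ⟨_, rfl⟩
  rw [← ha] at l1
  rw [← hc] at l2
  obtain ⟨b, hb⟩ : ∃ b, b = p2 • c + q2 • z := ⟨_, rfl⟩
  obtain ⟨t, ht⟩ : ∃ t, t = p2' • c + q2' • z := ⟨_, rfl⟩
  rw [← hb] at l2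
  have G1 : gram B a c z = gram B x y z := by
    rw [ha, hc, gram_comb hs, d1]
    ring
  have G2 : gram B a b t = gram B x y z := by
    rw [hb, ht, gram_comb' hs, d2, G1]
    ring
  have smem : ∀ (n : ℤ) {w : A}, w ∈ sat h v (T + m • U) → n • w ∈ sat h v (T + m • U) :=
    fun n w hw => AddSubgroup.zsmul_mem _ hw n
  have ma : a ∈ sat h v (T + m • U) := by
    rw [ha]
    exact add_mem (smem _ hx) (smem _ hy)
  have mc : c ∈ sat h v (T + m • U) := by
    rw [hc]
    exact add_mem (smem _ hx) (smem _ hy)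
  have mb : b ∈ sat h v (T + m • U) := by
    rw [hb]
    exact add_mem (smem _ mc) (smem _ hz)
  have mt : t ∈ sat h v (T + m • U) := by
    rw [ht]
    exact add_mem (smem _ mc) (smem _ hz)
  -- the Gram determinant is positive
  have hx0 : x ≠ 0 := fun h0 => by
    have := ind_three hxyz (a := 1) (b := 0) (c := 0) (by rw [h0]; module)
    exact one_ne_zero this.1
  have hpos : 0 < gram B x y z := gram_pos hs hp (g2_pos hs hp (fun a b hab => by
      have := ind_three hxyz (a := a) (b := b) (c := 0) (by rw [← hab]; module)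
      exact this.2.1) hx0) (fun a b c habc => (ind_three hxyz habc).2.2)
  obtain ⟨n, hn, p, q, h1⟩ := plane a ma l1
  obtain ⟨n', hn', p', q', h2⟩ := plane b mb l2
  have h3 := gram_mul hs (t := t) hn hn' h1 h2
  rw [G2, ← hgd] at h3
  have h4 : 0 < g2 B a b * gram B h v t := by
    rw [← h3]
    exact mul_pos hpos hgp
  have h5 : 0 ≤ gram B h v t := gram_nonneg hs hp hg t
  have h6 : 0 ≤ g2 B a b := g2_nonneg hs hp a b
  have h7 : 0 < g2 B a b := lt_of_le_of_ne h6 fun h => by
    rw [← h, zero_mul] at h4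
    exact lt_irrefl _ h4
  have h8 : 0 < gram B h v t := lt_of_le_of_ne h5 fun h => by
    rw [← h, mul_zero] at h4
    exact lt_irrefl _ h4
  -- the functional does not vanish at `t`
  have h9 : l t ≠ 0 := fun h0 => by
    obtain ⟨n, hn, p, q, h10⟩ := plane t mt h0
    have h11 := gram_smul' hs n h v t
    rw [h10, gram_dep hs] at h11
    exact (mul_pos (pow_pos (lt_of_le_of_ne (abs_nonneg n) (Ne.symm (abs_ne_zero.2 hn))) 2) h8).ne
      (by rw [sq_abs]; exact h11)
  have h10 : B f' (P t) ^ 2 ≤ B f' f' * (g * gram B h v t) := by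
    have h11 := cauchy hs hp f' (P t)
    rwa [hP t, prj_sq hs, ← hgd, ← hP t] at h11
  rw [key t mt] at h10
  have h11 : m ^ 2 ≤ (m * l t) ^ 2 := by
    have h12 : 1 ≤ l t ^ 2 := by
      have := pow_pos (abs_pos.2 h9) 2
      rw [sq_abs] at this
      omega
    nlinarith [sq_nonneg m]
  have h12 : gram B h v t ≤ gram B x y z * g := by
    rw [h3]
    nlinarith
  calc m ^ 2 ≤ B f' f' * (g * gram B h v t) := h11.trans h10
    _ ≤ B f' f' * (g * (gram B x y z * g)) :=
        mul_le_mul_of_nonneg_left (mul_le_mul_of_nonneg_left h12 hgp.le) hF.le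
    _ = B f' f' * g ^ 2 * gram B x y z := by ring

/-- For every bound `D` the Gram determinants of three independent elements of the saturation of
`⟨h, v, T + m U⟩` are larger than `D` for all `m` with `K ≤ |m|`. -/
theorem rank_four_large (hs : ∀ x y, B x y = B y x) (hp : ∀ x, x ≠ 0 → 0 < B x x) {h v T U : A}
    (hi : LinearIndependent ℤ ![h, v, T, U]) (D : ℤ) : ∃ K : ℤ, ∀ m : ℤ, K ≤ |m| → ∀ x y z : A,
      x ∈ sat h v (T + m • U) → y ∈ sat h v (T + m • U) → z ∈ sat h v (T + m • U) →
      LinearIndependent ℤ ![x, y, z] → D < gram B x y z := by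
  obtain ⟨C, hC, hm⟩ := rank_four hs hp hi
  refine ⟨C * |D| + 1, fun m hK x y z hx hy hz hxyz => ?_⟩
  have h1 := hm m x y z hx hy hz hxyz
  by_contra hcon
  push Not at hcon
  have h2 : 0 ≤ C * |D| := mul_nonneg hC.le (abs_nonneg D)
  have h3 : C * gram B x y z ≤ C * |D| :=
    mul_le_mul_of_nonneg_left (hcon.trans (le_abs_self D)) hC.le
  have h4 : C * |D| + 1 ≤ m ^ 2 := by
    rw [← sq_abs]
    nlinarith
  linarith

/-- The label of `T + 36 k U` is the label of `T` modulo 72. -/
theorem label_shift (hs : ∀ x y, B x y = B y x) (h T U : A) (k : ℤ) :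
    (72 : ℤ) ∣ (3 * B (T + (36 * k) • U) (T + (36 * k) • U) - B h (T + (36 * k) • U) ^ 2) -
      (3 * B T T - B h T ^ 2) := by
  refine ⟨k * (3 * B T U - B h T * B h U) + 18 * k ^ 2 * (3 * B U U - B h U ^ 2), ?_⟩
  simp only [map_add, map_smul, LinearMap.add_apply, LinearMap.smul_apply, smul_eq_mul]
  rw [hs U T]
  ring

end Pool.Agent.LBL
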