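import Pool.Agent.LBL.Core

/-!
# The isotropic vectors of divisibility 3
-/

set_option autoImplicit false

namespace Pool.Agent.LBL

variable {N : Type*} [AddCommGroup N] {B : N →ₗ[ℤ] N →ₗ[ℤ] ℤ}

/-- The two possibilities for `w₀ = l₁ + 2 l₂ + v`: some product of `w₀` is prime to `3`, or
`w₀ = 3 f + 3 f' + L` with a hyperbolic plane `⟨f, -f'⟩` orthogonal to `L`, `(L, L) = 18`. -/
def SplitOrPair (B : N →ₗ[ℤ] N →ₗ[ℤ] ℤ) (w₀ : N) : Prop :=
  (∃ y, ¬ 3 ∣ B y w₀) ∨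
    ∃ f f' : N, B f f = 0 ∧ B f' f' = 0 ∧ B f f' = -1 ∧ B f w₀ = -3 ∧ B f' w₀ = -3

/-- A hyperbolic plane gives an isotropic vector `w` with `(w, l₁)` prime to `3`. -/
theorem exists_w_of_hasU (hs : ∀ x y, B x y = B y x) {l₁ : N} (h11 : B l₁ l₁ = 2)
    (h : HasU B) : ∃ w, B w w = 0 ∧ ¬ 3 ∣ B w l₁ := by
  obtain ⟨e, f, he, hf, hef⟩ := h
  by_cases h1 : (3 : ℤ) ∣ B e l₁
  swap
  · exact ⟨e, he, h1⟩
  by_cases h2 : (3 : ℤ) ∣ B f l₁
  swap
  · exact ⟨f, hf, h2⟩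
  obtain ⟨a, ha⟩ := h1
  obtain ⟨b, hb⟩ := h2
  have hfe : B f e = 1 := by rw [hs, hef]
  have h1e : B l₁ e = 3 * a := by rw [hs, ha]
  have h1f : B l₁ f = 3 * b := by rw [hs, hb]
  -- `κ = l₁ - (f, l₁) e - (e, l₁) f`, `(κ, κ) / 2 = 1 - 9 a b`
  obtain ⟨κ, hκ⟩ : ∃ κ, κ = l₁ - (3 * b) • e - (3 * a) • f := ⟨_, rfl⟩
  have k1 : B κ κ = 2 * (1 - 9 * a * b) := by
    rw [hκ]
    simp only [map_sub, map_smul, LinearMap.sub_apply, LinearMap.smul_apply, smul_eq_mul, he, hf,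
      hef, hfe, h11, ha, hb, h1e, h1f]
    ring
  have k2 : B κ e = 0 := by
    rw [hκ]
    simp only [map_sub, map_smul, LinearMap.sub_apply, LinearMap.smul_apply, smul_eq_mul, he,
      hfe, h1e]
    ring
  have k3 : B κ f = 0 := by
    rw [hκ]
    simp only [map_sub, map_smul, LinearMap.sub_apply, LinearMap.smul_apply, smul_eq_mul, hf,
      hef, h1f]
    ring
  have k2' : B e κ = 0 := by rw [hs, k2]
  have k3' : B f κ = 0 := by rw [hs, k3]
  have k4 : B κ l₁ = 2 * (1 - 9 * a * b) := by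
    rw [hκ]
    simp only [map_sub, map_smul, LinearMap.sub_apply, LinearMap.smul_apply, smul_eq_mul, h11,
      ha, hb]
    ring
  refine ⟨e + κ - (1 - 9 * a * b) • f, ?_, ?_⟩
  · simp only [map_add, map_sub, map_smul, LinearMap.add_apply, LinearMap.sub_apply,
      LinearMap.smul_apply, smul_eq_mul, he, hf, hef, hfe, k1, k2, k2', k3, k3']
    ring
  · simp only [map_add, map_sub, map_smul, LinearMap.add_apply, LinearMap.sub_apply,
      LinearMap.smul_apply, smul_eq_mul, ha, hb, k4]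
    have e1 : 3 * a + 2 * (1 - 9 * a * b) - (1 - 9 * a * b) * (3 * b) =
        3 * (a - 6 * a * b - b + 9 * a * b ^ 2) + 2 := by ring
    rw [e1]
    omega

/-- **Discriminant 18.** -/
theorem lift_three (hs : ∀ x y, B x y = B y x) {l₁ l₂ v w : N} (hA : ATwo B l₁ l₂)
    (hv : B v v = -6) (hv1 : B v l₁ = 0) (hv2 : B v l₂ = 0) (hww : 6 ∣ B w w)
    (hw1 : ¬ 3 ∣ B w l₁) :
    SplitOrPair B (l₁ + 2 • l₂ + v) ∨ SplitOrPair B (l₁ + 2 • l₂ - v) := by
  by_cases hd1 : ∃ y, ¬ 3 ∣ B y (l₁ + 2 • l₂ + v)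
  · exact Or.inl (Or.inl hd1)
  by_cases hd2 : ∃ y, ¬ 3 ∣ B y (l₁ + 2 • l₂ - v)
  · exact Or.inr (Or.inl hd2)
  push Not at hd1 hd2
  have e1 := hd1 w
  have e2 := hd2 w
  obtain ⟨h11, h22, h12⟩ := hA
  simp only [map_add, map_sub, map_nsmul, nsmul_eq_mul] at e1 e2
  push_cast at e1 e2
  obtain ⟨t, ht⟩ : ∃ t, B w l₂ = B w l₁ + 3 * t := ⟨(B w l₂ - B w l₁) / 3, by omega⟩
  obtain ⟨c, hc⟩ : ∃ c, B w v = 3 * c := ⟨B w v / 3, by omega⟩
  have hvn : B (-v) (-v) = -6 := by simp only [map_neg, LinearMap.neg_apply, hv]; norm_num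
  have hvn1 : B (-v) l₁ = 0 := by simp only [map_neg, LinearMap.neg_apply, hv1]; norm_num
  have hvn2 : B (-v) l₂ = 0 := by simp only [map_neg, LinearMap.neg_apply, hv2]; norm_num
  by_cases hk1 : (3 : ℤ) ∣ B w l₁ + 2 * t + c
  swap
  · left; right
    refine lift_three_aux hs ⟨h11, h22, h12⟩ hv hv1 hv2 hww (k := B w l₁ + 2 * t + c) ?_ hk1 hw1
    simp only [map_add, map_nsmul, nsmul_eq_mul, ht, hc]
    push_cast
    ring
  by_cases hk2 : (3 : ℤ) ∣ B w l₁ + 2 * t - c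
  swap
  · right; right
    rw [sub_eq_add_neg]
    refine lift_three_aux hs ⟨h11, h22, h12⟩ hvn hvn1 hvn2 hww (k := B w l₁ + 2 * t - c) ?_ hk2 hw1
    simp only [map_add, map_neg, map_nsmul, nsmul_eq_mul, ht, hc]
    push_cast
    ring
  -- now `c` is divisible by `3` and `t` is prime to `3`: rotate
  left; right
  have h21 : B l₂ l₁ = -1 := by rw [hs, h12]
  have h1v : B l₁ v = 0 := by rw [hs, hv1]
  have h2v : B l₂ v = 0 := by rw [hs, hv2]
  refine lift_three_aux hs ⟨h11, h22, h12⟩ hv hv1 hv2 (w := rot B l₁ l₂ w)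
    (by rwa [rot_isom hs ⟨h11, h22, h12⟩]) (k := -t + c) ?_ ?_ ?_
  · unfold rot
    simp only [map_add, map_sub, map_smul, map_nsmul, LinearMap.sub_apply,
      LinearMap.smul_apply, nsmul_eq_mul, smul_eq_mul, h11, h12, h21, h22, h1v, h2v, ht, hc]
    push_cast
    ring
  · omega
  · have e3 : B (rot B l₁ l₂ w) l₁ = -(2 * B w l₁ + 3 * t) := by
      unfold rot
      simp only [map_sub, map_smul, LinearMap.sub_apply,
        LinearMap.smul_apply, smul_eq_mul, h11, h21, ht]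
      ring
    rw [e3]
    omega

/-- The converse of `lift_three`. -/
theorem hasU_of_splitOrPair (hs : ∀ x y, B x y = B y x) (he : ∀ x, Even (B x x)) {w₀ u : N}
    (h0 : B w₀ w₀ = 0) (hu : B u w₀ = -3) (h : SplitOrPair B w₀) : HasU B := by
  rcases h with ⟨y, hy⟩ | ⟨f, f', hf, hf', hff, -, -⟩
  · refine hasU_of_coprime hs he (y := w₀) (z₁ := y) (z₂ := u) h0 ?_
    rw [hs w₀ u, hu, hs w₀ y]
    exact coprime_three hy
  · refine ⟨f, -f', hf, ?_, ?_⟩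
    · simp only [map_neg, LinearMap.neg_apply, hf']; norm_num
    · simp only [map_neg, hff]; norm_num

end Pool.Agent.LBL
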